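import Pool.Agent.CYL.B.Def

/-!
CYL, part B for general `(p, r)`: `p` pairs of sites with inhomogeneities `(w, -w)` and `r` sites
with inhomogeneity `0` (in any order), `2 p + r` sites, `m = 2 p + r - l`.
`p = 1`: `H(n - 1) => H(n)`; `r = 0`: part B of note 3181.
The functions `la, th, Th, ZH, pr, tp, HB` are those of `B/Def.lean`.
-/

namespace Pool.Agent.CYL.BG

open Filter Topology Finset Pool.Agent.CYL.B

/-- The counting function `Z_w` of the system with `p` pairs `(w, -w)` and `r` sites `0`. -/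
noncomputable def ZWg (p r : ℕ) (w : ℝ) {m : ℕ} (v : Fin m → ℝ) (y : ℝ) : ℝ :=
  p * (th (la - w) y + th (la + w) y) + r * th la y - ∑ j, Th (y - v j)

/-- `ffg p r w u = prod_k sin (u - U_k)`. -/
noncomputable def ffg (p r : ℕ) (w : ℝ) (u : ℂ) : ℂ :=
  (Complex.sin (u - w) * Complex.sin (u + w)) ^ p * Complex.sin u ^ r

/-- `GWg p r m w q`: `q` is a real multiple of `prod_j sin (u - i v_j)` with
`v_1 < ... < v_m` real, symmetric, and `Z_w (v_j) = 2 pi (j - (m + 1) / 2)`, `j = 1, ..., m`. -/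
def GWg (p r m : ℕ) (w : ℝ) (q : ℂ → ℂ) : Prop :=
  ∃ (c : ℝ) (v : Fin m → ℝ), c ≠ 0 ∧ StrictMono v ∧ (∀ j, v (Fin.rev j) = - v j) ∧
    (∀ u, q u = pr c v u) ∧
    ∀ j : Fin m, ZWg p r w v (v j) = Real.pi * (2 * (j : ℕ) + 1 - m)

/-- What parts A and PF deliver for `p` pairs `(w, -w)`, `0 ≤ w < lam`, and `r` sites `0`. -/
structure GData (p r m l : ℕ) where
  /-- the function `q_w` -/
  q : ℝ → ℂ → ℂ
  /-- the eigenvalue `t_w` -/
  T : ℝ → ℂ → ℂ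
  hm : 2 * p + r = m + l
  hl : 1 ≤ l
  hp : l ≤ p + r
  /-- `q_w` is a trigonometric polynomial of degree exactly `m` -/
  q_tp : ∀ w ∈ Set.Ico 0 la, ∃ c : ℕ → ℂ, c m ≠ 0 ∧ ∀ u, q w u = tp m c u
  /-- continuity in `w` -/
  q_cont : ∀ u, ContinuousOn (fun w => q w u) (Set.Ico 0 la)
  /-- reality -/
  q_conj : ∀ w ∈ Set.Ico 0 la, ∀ u, (starRingEnd ℂ) (q w u) = q w ((starRingEnd ℂ) u)
  /-- mirror symmetry -/
  q_neg : ∀ w ∈ Set.Ico 0 la, ∀ u, q w (-u) = (-1) ^ m * q w u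
  /-- the T-Q equation -/
  tq : ∀ w ∈ Set.Ico 0 la, ∀ u : ℂ,
    T w u * q w (u - la) * q w (u - 2 * la) =
      (-1) ^ m * (ffg p r w (u - 2 * la) * ffg p r w (u - 3 * la)) * q w (u + la)
        * q w (u - 2 * la)
      + (-1) ^ r * (ffg p r w u * ffg p r w (u - 3 * la)) * q w u * q w (u - 3 * la)
      + (-1) ^ m * (ffg p r w u * ffg p r w (u - la)) * q w (u - 4 * la) * q w (u - la)

/-- What part PF delivers about the limit `w → lam` (fusion), with `qh` the function `q` of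
the homogeneous system with `p + r` sites. -/
def GLim {p r m l : ℕ} (D : GData p r m l) (qh : ℂ → ℂ) : Prop :=
  ∃ (w : ℕ → ℝ) (κ : ℝ), (∀ n, w n ∈ Set.Ico 0 la) ∧ Tendsto w atTop (𝓝 la) ∧ κ ≠ 0 ∧
    (∀ u, Tendsto (fun n => D.q (w n) u) atTop (𝓝 (κ * Complex.sin u ^ p * qh u))) ∧
    ∃ δ > 0, ∃ c0 > 0, ∀ᶠ n in atTop, ∀ u : ℂ, ‖u - la‖ ≤ δ → c0 ≤ ‖D.T (w n) u‖

end Pool.Agent.CYL.BG
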