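import Pool.Agent.CYL.BG.St4
import Pool.Agent.CYL.B.Start6

/-!
# CYL, part B for general `(p, r)`: the start of the homotopy, assembly (port of B/Start5, B/Start6)
-/

namespace Pool.Agent.CYL.BG.St

open Filter Topology
open Pool.Agent.CYL.B hiding la_pos th_neg th_zero neg_one_pow_eq sin_la_pos Th_neg coef_real q_factor quant
open Pool.Agent.CYL.B.St hiding ev_good outer inner

/-- the part of `Z` which is continuous at `w = lam` -/
theorem est_reg {p rr m1 : ℕ} {v : Fin m1 → ℝ} (hs : ∀ j, v (Fin.rev j) = - v j)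
    {w : ℕ → ℝ} (hl : Tendsto w atTop (𝓝 la)) (j : Fin (p + m1)) :
    ∀ᶠ d in 𝓝[>] (0 : ℝ), ∀ᶠ n in atTop, ∀ r : Fin (p + m1) → ℝ, (∀ k, |r k - us p v k| < d) →
      |(p * th (la + w n) (r j) + rr * th la (r j) - ∑ k, Th (r j - r k)) - ZH (p + rr) v (us p v j)| < 2 := by
  have hη : (0 : ℝ) < 1 / (2 * (p + 1)) := by positivity
  have hsin : Real.sin (2 * la) ≠ 0 := (sin_la_pos (by linarith [la_pos]) (by linarith [la_pos])).ne'
  have hc := (th_continuousAt (a := 2 * la) (y := us p v j) hsin)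
  obtain ⟨ε, hε, hε2⟩ := Metric.continuousAt_iff.mp hc _ hη
  have e1 : ∀ᶠ d in 𝓝[>] (0 : ℝ), d < ε := (eventually_lt_nhds hε).filter_mono nhdsWithin_le_nhds
  have e2 : ∀ᶠ d in 𝓝[>] (0 : ℝ), d < (1 : ℝ) / (12 * ((p : ℝ) + m1 + 1)) :=
    (eventually_lt_nhds (by positivity)).filter_mono nhdsWithin_le_nhds
  have hη2 : (0 : ℝ) < 1 / (rr + 1) := by positivity
  have hcla : ContinuousAt (th la) (us p v j) := (th_continuous la).continuousAt
  obtain ⟨ε', hε', hε2'⟩ := Metric.continuousAt_iff.mp hcla _ hη2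
  have e1' : ∀ᶠ d in 𝓝[>] (0 : ℝ), d < ε' := (eventually_lt_nhds hε').filter_mono nhdsWithin_le_nhds
  filter_upwards [e1, e1', e2, self_mem_nhdsWithin] with d hd1 hd1' hd2 hd3
  have hd0 : 0 < d := hd3
  have e3 : ∀ᶠ n in atTop, dist (w n) la < ε := (Metric.tendsto_nhds.mp hl) ε hε
  filter_upwards [e3] with n hn r hr
  -- the first term
  have f1 : |th (la + w n) (r j) - th (2 * la) (us p v j)| < 1 / (2 * (p + 1)) := by
    have h1 := @hε2 (la + w n, r j) (by
      rw [Prod.dist_eq, max_lt_iff]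
      refine ⟨?_, ?_⟩
      · show dist (la + w n) (2 * la) < ε
        have e : la + w n - 2 * la = w n - la := by ring
        rw [Real.dist_eq, e, ← Real.dist_eq]
        exact hn
      · show dist (r j) (us p v j) < ε
        rw [Real.dist_eq]
        exact (hr j).trans hd1)
    rw [Real.dist_eq] at h1
    exact h1
  have f2 : |(p : ℝ) * th (la + w n) (r j) - p * th (2 * la) (us p v j)| < 1 / 2 := by
    rw [← mul_sub, abs_mul, Nat.abs_cast]
    have hp0 : (0 : ℝ) ≤ p := Nat.cast_nonneg p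
    calc (p : ℝ) * |th (la + w n) (r j) - th (2 * la) (us p v j)| ≤ p * (1 / (2 * (p + 1))) :=
          mul_le_mul_of_nonneg_left f1.le hp0
      _ < 1 / 2 := by
          rw [mul_one_div, div_lt_div_iff₀ (by positivity) (by norm_num)]
          linarith
  have f2' : |(rr : ℝ) * th la (r j) - rr * th la (us p v j)| < 1 := by
    rw [← mul_sub, abs_mul, Nat.abs_cast]
    have h1 := @hε2' (r j) (by
      rw [Real.dist_eq]
      exact (hr j).trans hd1')
    rw [Real.dist_eq] at h1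
    have hp0 : (0 : ℝ) ≤ rr := Nat.cast_nonneg rr
    calc (rr : ℝ) * |th la (r j) - th la (us p v j)| ≤ rr * (1 / (rr + 1)) :=
          mul_le_mul_of_nonneg_left h1.le hp0
      _ < 1 := by
          rw [mul_one_div, div_lt_one (by positivity)]
          linarith
  -- the second term
  have f3 : |∑ k, Th (r j - r k) - ∑ k : Fin (p + m1), Th (us p v j - us p v k)| < 1 / 2 := by
    rw [← Finset.sum_sub_distrib]
    have h1 : ∀ k : Fin (p + m1), |Th (r j - r k) - Th (us p v j - us p v k)| ≤ 6 * d := by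
      intro k
      refine (Th_lipschitz _ _).trans ?_
      have h2 : |r j - r k - (us p v j - us p v k)| ≤ |r j - us p v j| + |r k - us p v k| := by
        have e : r j - r k - (us p v j - us p v k) = (r j - us p v j) - (r k - us p v k) := by ring
        rw [e]
        exact abs_sub _ _
      have h3 := hr j
      have h4 := hr k
      linarith
    have h2 : |∑ k, (Th (r j - r k) - Th (us p v j - us p v k))| ≤ (p + m1 : ℝ) * (6 * d) := by
      refine (Finset.abs_sum_le_sum_abs _ _).trans ?_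
      refine (Finset.sum_le_sum fun k _ => h1 k).trans ?_
      rw [Finset.sum_const, Finset.card_univ, Fintype.card_fin, nsmul_eq_mul]
      push_cast
      exact le_refl _
    refine lt_of_le_of_lt h2 ?_
    rw [lt_div_iff₀ (by positivity)] at hd2
    have h5 : (0 : ℝ) ≤ p + m1 := by positivity
    nlinarith
  have f4 : ∑ k : Fin (p + m1), Th (us p v j - us p v k) = p * Th (us p v j) + ∑ i, Th (us p v j - v i) := by
    have := sum_us (p := p) hs (fun x => Th (us p v j - x))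
    simpa using this
  have f5 : ZH (p + rr) v (us p v j) = p * th (2 * la) (us p v j) + rr * th la (us p v j) -
      ∑ k : Fin (p + m1), Th (us p v j - us p v k) := by
    rw [f4]
    unfold ZH
    have : Th (us p v j) = th (2 * la) (us p v j) - th la (us p v j) := rfl
    rw [this]
    push_cast
    ring
  rw [f5]
  have f6 := abs_lt.mp f2
  have f6' := abs_lt.mp f2'
  have f7 := abs_lt.mp f3
  rw [abs_lt]
  constructor <;> linarith [f6.1, f6.2, f6'.1, f6'.2, f7.1, f7.2]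

/-- the outer roots -/
theorem outer {p rr m1 l : ℕ} (D : GData p rr (p + m1) l) {w : ℕ → ℝ} (hw : ∀ n, w n ∈ Set.Ico 0 la)
    {κ c : ℝ} (hκ : κ ≠ 0) (hc : c ≠ 0) (v : Fin m1 → ℝ) {qs : ℂ → ℂ}
    (hqs : ∀ u, qs u = κ * Complex.sin u ^ p * pr c v u)
    (h : ∀ u, Tendsto (fun n => D.q (w n) u) atTop (𝓝 (qs u))) {d : ℝ} (hd : 0 < d)
    (h1 : ∀ i, v i ≠ 0 → 2 * d < |v i|) (h2 : ∀ i k, i ≠ k → 2 * d < |v i - v k|) :
    ∀ᶠ n in atTop, ∀ i, v i ≠ 0 → ∃ y : ℝ, |y - v i| < d ∧ D.q (w n) (Complex.I * y) = 0 := by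
  obtain ⟨r, -, -, -, hr⟩ := coef_real D
  have hI : (Complex.I : ℂ) ^ (p + m1) ≠ 0 := pow_ne_zero _ Complex.I_ne_zero
  have hqr : ∀ n (y : ℝ), D.q (w n) (Complex.I * y) = Complex.I ^ (p + m1) * (qr (r (w n)) (p + m1) y : ℂ) := by
    intro n y
    rw [hr (w n) (hw n), tp_I_mul]
  have hlim : ∀ y : ℝ, Tendsto (fun n => qr (r (w n)) (p + m1) y) atTop (𝓝 (gs p v (κ * c) y)) := by
    intro y
    have h3 := (h (Complex.I * y)).div_const (Complex.I ^ (p + m1))
    have h4 : Tendsto (fun n => ((qr (r (w n)) (p + m1) y : ℝ) : ℂ)) atTop (𝓝 ((gs p v (κ * c) y : ℝ) : ℂ)) := by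
      have e1 : (fun n => D.q (w n) (Complex.I * y) / Complex.I ^ (p + m1)) =
          fun n => ((qr (r (w n)) (p + m1) y : ℝ) : ℂ) := by
        funext n
        rw [hqr, mul_div_cancel_left₀ _ hI]
      have e2 : qs (Complex.I * y) / Complex.I ^ (p + m1) = ((gs p v (κ * c) y : ℝ) : ℂ) := by
        rw [hqs, qs_I, mul_div_cancel_left₀ _ hI]
      rw [e1, e2] at h3
      exact h3
    have h5 := (Complex.continuous_re.tendsto _).comp h4
    simpa [Function.comp_def] using h5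
  rw [Filter.eventually_all]
  intro i
  by_cases hi : v i = 0
  · exact Eventually.of_forall fun n h => absurd hi h
  · have hs := sign_change (p := p) (v := v) (c := κ * c) (mul_ne_zero hκ hc) (j := i) hd
      (by have := h1 i hi; linarith) (fun k hk => by have := h2 i k hk.symm; linarith)
    have he := ev_root (F := atTop) (g := fun n y => qr (r (w n)) (p + m1) y) (g0 := gs p v (κ * c))
      (a := v i - d) (b := v i + d) (by linarith) (fun n => by
        unfold qr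
        fun_prop) (hlim _) (hlim _) hs
    filter_upwards [he] with n hn _
    obtain ⟨y, hy, hy2⟩ := hn
    refine ⟨y, ?_, ?_⟩
    · rw [abs_lt]
      constructor <;> linarith [hy.1, hy.2]
    · rw [hqr, hy2]
      simp

theorem int_eq_of_close3 {k j : ℤ} {m x : ℝ} (h1 : |Real.pi * (2 * j + 1 - m) - x| < 3)
    (h2 : x = Real.pi * (2 * k + 1 - m)) : k = j := by
  rw [h2] at h1
  have e : Real.pi * (2 * j + 1 - m) - Real.pi * (2 * k + 1 - m) = Real.pi * 2 * ((j - k : ℤ) : ℝ) := by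
    push_cast
    ring
  rw [e, abs_mul, abs_of_pos (by positivity)] at h1
  by_contra hne
  have h3 : (1 : ℤ) ≤ |j - k| := Int.one_le_abs (sub_ne_zero.mpr (Ne.symm hne))
  have h4 : (1 : ℝ) ≤ |((j - k : ℤ) : ℝ)| := by
    rw [← Int.cast_abs]
    exact_mod_cast h3
  have := Real.pi_gt_three
  nlinarith

/-- the start, for `m = p + m1` -/
theorem start_aux {p rr m1 l : ℕ} (D : GData p rr (p + m1) l) (hp0 : p ≠ 0) (hpm : m1 < p + rr)
    {w : ℕ → ℝ} (hw : ∀ n, w n ∈ Set.Ico 0 la) (hl : Tendsto w atTop (𝓝 la))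
    {κ c : ℝ} (hκ : κ ≠ 0) (hc : c ≠ 0) {v : Fin m1 → ℝ} (hv : StrictMono v)
    (hs : ∀ j, v (Fin.rev j) = - v j)
    (hZ : ∀ j : Fin m1, ZH (p + rr) v (v j) = Real.pi * (2 * (j : ℕ) + 1 - m1)) {qs : ℂ → ℂ}
    (hqs : ∀ u, qs u = κ * Complex.sin u ^ p * pr c v u)
    (h : ∀ u, Tendsto (fun n => D.q (w n) u) atTop (𝓝 (qs u)))
    {δ c0 : ℝ} (hδ : 0 < δ) (hc0 : 0 < c0)
    (hT : ∀ᶠ n in atTop, ∀ u : ℂ, ‖u - la‖ ≤ δ → c0 ≤ ‖D.T (w n) u‖) :
    ∃ d > (0 : ℝ), ∀ᶠ n in atTop, GWg p rr (p + m1) (w n) (D.q (w n)) := by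
  have hE := (ev_good D hw hl hp0 hpm hκ hc hs hqs h hδ hc0 hT).and
    ((ev_sep hv).and (Filter.eventually_all.mpr fun j => est_reg (p := p) (rr := rr) hs hl j))
  obtain ⟨d, ⟨hgood, ⟨hsep1, hsep2⟩, hreg⟩, hd⟩ := (hE.and self_mem_nhdsWithin).exists
  have hd0 : (0 : ℝ) < d := hd
  refine ⟨d, hd0, ?_⟩
  filter_upwards [hgood, Filter.eventually_all.mpr hreg, outer D hw hκ hc v hqs h hd0 hsep1 hsep2,
    est_sing (p := p) hw hl hd0] with n hg hr0 hout hsing
  obtain ⟨rin, hin1, hin2, hin3⟩ := inner D (hw n) hd0 hg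
  -- the number of an inner index
  have hnum : ∀ j : ℕ, (m1 ≤ 2 * j + 1 ∧ 2 * j + 1 ≤ m1 + 2 * p) →
      |(2 * (j : ℝ) + 1 - ((p + m1 : ℕ) : ℝ)) / 2| ≤ (p : ℝ) / 2 := by
    intro j hj
    have h1 : (m1 : ℝ) ≤ 2 * j + 1 := by exact_mod_cast hj.1
    have h2 : (2 * j + 1 : ℝ) ≤ m1 + 2 * p := by exact_mod_cast hj.2
    push_cast
    rw [abs_le]
    constructor <;> linarith
  have hex : ∀ j : Fin (p + m1), ∃ y : ℝ, |y - us p v j| < d ∧ D.q (w n) (Complex.I * y) = 0 ∧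
      ((m1 ≤ 2 * (j : ℕ) + 1 ∧ 2 * (j : ℕ) + 1 ≤ m1 + 2 * p) →
        y = rin ((2 * (j : ℕ) + 1 - ((p + m1 : ℕ) : ℝ)) / 2)) := by
    intro j
    rcases us_cases (p := p) hv hs j.2 with ⟨a1, a2, a3⟩ | ⟨a1, i, a2, a3, a4⟩ | ⟨a1, i, a2, a3, a4⟩
    · refine ⟨rin ((2 * (j : ℕ) + 1 - ((p + m1 : ℕ) : ℝ)) / 2), ?_, ?_, fun _ => rfl⟩
      · rw [a3, sub_zero, abs_lt]
        exact (hin1 _ (hnum j ⟨a1, a2⟩)).1
      · have e : (2 * ((j : ℕ) : ℝ) + 1 - ((p + m1 : ℕ) : ℝ)) / 2 =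
            (((p + m1 : ℕ) : ℝ) + 1) / 2 + (((j : ℕ) : ℤ) - ((p + m1 : ℕ) : ℤ) : ℤ) := by
          push_cast
          ring
        have h3 := hnum j ⟨a1, a2⟩
        rw [e] at h3 ⊢
        exact hin3 _ h3
    · obtain ⟨y, hy1, hy2⟩ := hout i a4.ne
      refine ⟨y, by rw [a3]; exact hy1, hy2, fun h => ?_⟩
      omega
    · obtain ⟨y, hy1, hy2⟩ := hout i a4.ne'
      refine ⟨y, by rw [a3]; exact hy1, hy2, fun h => ?_⟩
      omega
  choose r hr1 hr2 hr3 using hex
  have hmono : StrictMono r := by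
    intro j k hjk
    by_cases hjk2 : (m1 ≤ 2 * (j : ℕ) + 1 ∧ 2 * (j : ℕ) + 1 ≤ m1 + 2 * p) ∧
        (m1 ≤ 2 * (k : ℕ) + 1 ∧ 2 * (k : ℕ) + 1 ≤ m1 + 2 * p)
    · rw [hr3 j hjk2.1, hr3 k hjk2.2]
      apply hin2 _ _ (hnum j hjk2.1) (hnum k hjk2.2)
      have h1 : ((j : ℕ) : ℝ) < (k : ℕ) := by exact_mod_cast hjk
      linarith
    · have h1 := us_gap (p := p) hv hs hsep1 hsep2 j.2 k.2 hjk hjk2
      have h2 := abs_lt.mp (hr1 j)
      have h3 := abs_lt.mp (hr1 k)
      linarith [h2.2, h3.1]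
  obtain ⟨hsym, c', hc', hq'⟩ := q_factor D (hw n) r hmono hr2
  refine ⟨c', r, hc', hmono, hsym, hq', fun j => ?_⟩
  rcases us_cases (p := p) hv hs j.2 with ⟨a1, a2, a3⟩ | ⟨a1, i, a2, a3, a4⟩ | ⟨a1, i, a2, a3, a4⟩
  · have h1 : r j ∈ Set.Icc (-d) d := by
      have h2 := abs_lt.mp (hr1 j)
      rw [a3] at h2
      exact ⟨by linarith [h2.1], by linarith [h2.2]⟩
    rw [ZWg_eq_zt D (hw n) hg hc' hsym hq' h1, hr3 j ⟨a1, a2⟩, (hin1 _ (hnum j ⟨a1, a2⟩)).2]
    ring
  · obtain ⟨k, hk⟩ := quant D (hw n) hc' hq' j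
    have h2 := abs_lt.mp (hr1 j)
    have h3 := hsep1 i a4.ne
    rw [abs_of_neg a4] at h3
    rw [a3] at h2
    obtain ⟨-, h4⟩ := hsing (-(r j)) (by linarith [h2.2])
    rw [neg_neg] at h4
    have h5 := hr0 j r hr1
    rw [a3, hZ i] at h5
    have h6 : ((i : ℕ) : ℝ) = (j : ℕ) := by exact_mod_cast a2
    rw [h6] at h5
    have h7 : k = ((j : ℕ) : ℤ) := by
      refine int_eq_of_close3 (m := ((p + m1 : ℕ) : ℝ)) (x := ZWg p rr (w n) r (r j)) ?_ hk
      have e : ZWg p rr (w n) r (r j) = p * th (la - w n) (r j) +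
          (p * th (la + w n) (r j) + rr * th la (r j) - ∑ k, Th (r j - r k)) := by
        unfold ZWg
        ring
      rw [e]
      have h8 := abs_lt.mp h4
      have h9 := abs_lt.mp h5
      push_cast
      rw [abs_lt]
      constructor <;> linarith [h8.1, h8.2, h9.1, h9.2]
    rw [hk, h7]
    push_cast
    ring
  · obtain ⟨k, hk⟩ := quant D (hw n) hc' hq' j
    have h2 := abs_lt.mp (hr1 j)
    have h3 := hsep1 i a4.ne'
    rw [abs_of_pos a4] at h3
    rw [a3] at h2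
    obtain ⟨h4, -⟩ := hsing (r j) (by linarith [h2.1])
    have h5 := hr0 j r hr1
    rw [a3, hZ i] at h5
    have h6 : ((i : ℕ) : ℝ) + p = (j : ℕ) := by exact_mod_cast a2
    have h6' : ((i : ℕ) : ℝ) = (j : ℕ) - p := by linarith
    rw [h6'] at h5
    have h7 : k = ((j : ℕ) : ℤ) := by
      refine int_eq_of_close3 (m := ((p + m1 : ℕ) : ℝ)) (x := ZWg p rr (w n) r (r j)) ?_ hk
      have e : ZWg p rr (w n) r (r j) = p * th (la - w n) (r j) +
          (p * th (la + w n) (r j) + rr * th la (r j) - ∑ k, Th (r j - r k)) := by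
        unfold ZWg
        ring
      rw [e]
      have h8 := abs_lt.mp h4
      have h9 := abs_lt.mp h5
      push_cast
      rw [abs_lt]
      constructor <;> linarith [h8.1, h8.2, h9.1, h9.2]
    rw [hk, h7]
    push_cast
    ring

end Pool.Agent.CYL.BG.St
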