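import Pool.Agent.CYL.BG.Def
import Pool.Agent.CYL.BG.St6

/-!
CYL, part B for general `(p, r)`, (B3): the start of the homotopy.
-/

namespace Pool.Agent.CYL.BG

open Filter Topology Pool.Agent.CYL.B

/-- (B3), strong form: all `w n` close to `lam` are good. -/
theorem start_ev {p r m l m1 : ℕ} (D : GData p r m l) {qh : ℂ → ℂ} (hp0 : 1 ≤ p)
    (hp1 : p + r = m1 + l) (hH : HB (p + r) m1 qh) {w : ℕ → ℝ} {κ : ℝ}
    (hw : ∀ n, w n ∈ Set.Ico 0 la) (hl : Tendsto w atTop (𝓝 la)) (hκ : κ ≠ 0)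
    (h : ∀ u, Tendsto (fun n => D.q (w n) u) atTop (𝓝 (κ * Complex.sin u ^ p * qh u)))
    {δ c0 : ℝ} (hδ : 0 < δ) (hc0 : 0 < c0)
    (hT : ∀ᶠ n in atTop, ∀ u : ℂ, ‖u - la‖ ≤ δ → c0 ≤ ‖D.T (w n) u‖) :
    ∀ᶠ n in atTop, GWg p r m (w n) (D.q (w n)) := by
  have hm : m = p + m1 := by
    have := D.hm
    omega
  subst hm
  have hl1 := D.hl
  obtain ⟨c, v, hc, hv, hs, hq, hZ⟩ := hH
  obtain ⟨d, hd, h1⟩ := St.start_aux D (by omega) (by omega) hw hl hκ hc hv hs hZ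
    (qs := fun u => κ * Complex.sin u ^ p * qh u) (fun u => by rw [hq u]) h hδ hc0 hT
  exact h1

/-- (B3) The start: some `w` close to `lam` is good (`1 ≤ p`; `m1 = p + r - l`). -/
theorem start {p r m l m1 : ℕ} (D : GData p r m l) {qh : ℂ → ℂ} (hB : GLim D qh) (hp0 : 1 ≤ p)
    (hp1 : p + r = m1 + l) (hH : HB (p + r) m1 qh) :
    ∃ w ∈ Set.Ico 0 la, GWg p r m w (D.q w) := by
  obtain ⟨w, κ, hw, hl, hκ, h, δ, hδ, c0, hc0, hT⟩ := hB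
  obtain ⟨n, hn⟩ := (start_ev D hp0 hp1 hH hw hl hκ h hδ hc0 hT).exists
  exact ⟨w n, hw n, hn⟩

end Pool.Agent.CYL.BG
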