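import Pool.Agent.CYL.BG.Homot
import Pool.Agent.CYL.BG.Start

/-!
CYL, part B for general `(p, r)`: `H(p + r)` implies `H(2 p + r)`; `p = 1`: `H(n - 1)` implies `H(n)`.
-/

namespace Pool.Agent.CYL.BG

open Pool.Agent.CYL.B

/-- **part B**, general `(p, r)` -/
theorem main_BG {p r m l : ℕ} (D : GData p r m l) (qh : ℂ → ℂ) (hB : GLim D qh) (hp0 : 1 ≤ p)
    (m1 : ℕ) (h : p + r = m1 + l) (hq : HB (p + r) m1 qh) : HB (2 * p + r) m (D.q 0) := by
  obtain ⟨w, hw, hG⟩ := start D hB hp0 h hq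
  exact hb_of_start D hw hG

end Pool.Agent.CYL.BG
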