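import Pool.Agent.CYL.BG.Def
import Pool.Agent.CYL.B.Coef
import Pool.Agent.CYL.B.GForm
import Pool.Agent.CYL.B.Factor

/-!
CYL, part B for general `(p, r)`: coefficients, product form, joint continuity (port of
CofA, Coef, GForm, Factor of `CYL/B`, helper32, helper12).
-/

namespace Pool.Agent.CYL.BG

open Complex Finset Filter Topology Pool.Agent.CYL.B

variable {p r m l : ℕ}

/-- `q_w` is the trigonometric polynomial with the coefficients `cf m (q_w)`, the leading one is not zero -/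
theorem ca_coef (D : GData p r m l) {w : ℝ} (hw : w ∈ Set.Ico 0 la) :
    cf m (D.q w) m ≠ 0 ∧ ∀ u, D.q w u = tp m (cf m (D.q w)) u := by
  obtain ⟨c, hc, hq⟩ := D.q_tp w hw
  have h1 : D.q w = tp m c := funext hq
  rw [h1]
  refine ⟨?_, fun u => ?_⟩
  · rw [cf_tp c le_rfl]
    exact hc
  · exact tp_congr (fun j hj => (cf_tp c hj).symm) u

theorem ca_cont (D : GData p r m l) (j : ℕ) : ContinuousOn (fun w => cf m (D.q w) j) (Set.Ico 0 la) := by
  unfold cf
  refine ContinuousOn.div_const ?_ _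
  refine continuousOn_finsetSum _ fun k _ => ?_
  exact (D.q_cont _).mul continuousOn_const

/-- joint continuity -/
theorem ca_joint (D : GData p r m l) : ContinuousOn (fun x : ℝ × ℂ => D.q x.1 x.2) (Set.Ico 0 la ×ˢ Set.univ) := by
  have h1 : ContinuousOn (fun x : ℝ × ℂ => tp m (cf m (D.q x.1)) x.2) (Set.Ico 0 la ×ˢ Set.univ) := by
    unfold tp
    refine continuousOn_finsetSum _ fun j _ => ?_
    refine ContinuousOn.mul ?_ (Continuous.continuousOn (by fun_prop))
    exact (ca_cont D j).comp continuousOn_fst fun x hx => hx.1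
  exact h1.congr fun x hx => (ca_coef D hx.1).2 x.2

/-- Real, continuous coefficients of `q_w`: `q_w(u) = i^m sum_j r_j(w) e^(i (2 j - m) u)`. -/
theorem coef_real {p r m l : ℕ} (D : GData p r m l) : ∃ rr : ℝ → ℕ → ℝ,
    (∀ j, ContinuousOn (fun w => rr w j) (Set.Ico 0 la)) ∧
    (∀ w ∈ Set.Ico 0 la, rr w m ≠ 0) ∧
    (∀ w ∈ Set.Ico 0 la, ∀ j ≤ m, rr w (m - j) = (-1) ^ m * rr w j) ∧
    ∀ w ∈ Set.Ico 0 la, ∀ u, D.q w u = Complex.I ^ m * tp m (fun j => (rr w j : ℂ)) u := by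
  have hI : Complex.I ^ m ≠ 0 := pow_ne_zero m Complex.I_ne_zero
  -- symmetry of the coefficients
  have s1 : ∀ w ∈ Set.Ico 0 la, ∀ j ≤ m,
      cf m (D.q w) (m - j) = (-1) ^ m * cf m (D.q w) j := by
    intro w hw
    have h1 : ∀ u, tp m (fun j => cf m (D.q w) (m - j)) u =
        tp m (fun j => (-1) ^ m * cf m (D.q w) j) u := by
      intro u
      rw [tp_reflect, ← (ca_coef D hw).2, D.q_neg w hw u, (ca_coef D hw).2 u]
      unfold tp
      rw [Finset.mul_sum]
      exact Finset.sum_congr rfl fun j _ => by ring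
    exact tp_unique h1
  have s2 : ∀ w ∈ Set.Ico 0 la, ∀ j ≤ m,
      (starRingEnd ℂ) (cf m (D.q w) j) = cf m (D.q w) (m - j) := by
    intro w hw
    have h1 : ∀ u, tp m (fun j => (starRingEnd ℂ) (cf m (D.q w) j)) u =
        tp m (fun j => cf m (D.q w) (m - j)) u := by
      intro u
      have h2 := D.q_conj w hw (-(starRingEnd ℂ) u)
      rw [(ca_coef D hw).2, tp_conj, (ca_coef D hw).2 ((starRingEnd ℂ) (-(starRingEnd ℂ) u))] at h2
      rw [tp_reflect]
      simpa using h2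
    exact tp_unique h1
  have s3 : ∀ w ∈ Set.Ico 0 la, ∀ j ≤ m,
      (((cf m (D.q w) j / Complex.I ^ m).re : ℝ) : ℂ) = cf m (D.q w) j / Complex.I ^ m := by
    intro w hw j hj
    rw [← Complex.conj_eq_iff_re, map_div₀, s2 w hw j hj, s1 w hw j hj, map_pow, Complex.conj_I,
      neg_pow Complex.I m]
    have h1 : ((-1 : ℂ)) ^ m ≠ 0 := pow_ne_zero m (by norm_num)
    exact mul_div_mul_left _ _ h1
  refine ⟨fun w j => (cf m (D.q w) j / Complex.I ^ m).re, fun j => ?_, fun w hw => ?_,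
    fun w hw j hj => ?_, fun w hw u => ?_⟩
  · exact Complex.continuous_re.comp_continuousOn ((ca_cont D j).div_const _)
  · intro h
    have h1 := s3 w hw m le_rfl
    simp only at h
    rw [h, Complex.ofReal_zero] at h1
    have h2 := (div_eq_zero_iff.1 h1.symm).resolve_right hI
    exact (ca_coef D hw).1 h2
  · have h1 := s3 w hw (m - j) (Nat.sub_le m j)
    have h2 := s3 w hw j hj
    apply Complex.ofReal_injective
    push_cast
    rw [h1, h2, s1 w hw j hj]
    ring
  · rw [(ca_coef D hw).2 u]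
    unfold tp
    rw [Finset.mul_sum]
    refine Finset.sum_congr rfl fun j hj => ?_
    simp only
    rw [s3 w hw j (Nat.lt_succ_iff.mp (mem_range.mp hj)), ← mul_assoc, mul_div_cancel₀ _ hI]

theorem gf_prod (D : GData p r m l) {w : ℝ} (hw : w ∈ Set.Ico 0 la) {v : Fin m → ℝ} (hv : StrictMono v)
    (h0 : ∀ j, D.q w (I * v j) = 0) :
    ∃ c : ℝ, c ≠ 0 ∧ (∀ j, v (Fin.rev j) = - v j) ∧ ∀ u, D.q w u = pr c v u := by
  obtain ⟨hc, hq⟩ := ca_coef D hw
  have h1 : ∀ u, D.q w u = cf m (D.q w) m * (2 * I) ^ m * exp (-∑ j, (v j : ℂ)) *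
      ∏ j, sin (u - I * v j) := fun u => by
    rw [hq u]
    exact fa_factor hc hv.injective (fun j => by rw [← hq]; exact h0 j) u
  set K : ℂ := cf m (D.q w) m * (2 * I) ^ m * exp (-∑ j, (v j : ℂ)) with hK
  have hK0 : K ≠ 0 := by
    rw [hK]
    refine mul_ne_zero (mul_ne_zero hc (pow_ne_zero _ ?_)) (exp_ne_zero _)
    simp
  -- the zeros are symmetric
  have hz : ∀ t : ℝ, D.q w (I * t) = 0 ↔ ∃ j, t = v j := by
    intro t
    rw [h1, fa_sinI]
    constructor
    · intro h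
      rcases mul_eq_zero.mp h with h1 | h1
      · exact absurd h1 hK0
      · rcases mul_eq_zero.mp h1 with h2 | h2
        · exact absurd h2 (pow_ne_zero _ I_ne_zero)
        · have h3 : ∏ j, Real.sinh (t - v j) = 0 := by exact_mod_cast h2
          obtain ⟨j, -, hj⟩ := Finset.prod_eq_zero_iff.mp h3
          exact ⟨j, by linarith [Real.sinh_eq_zero.mp hj]⟩
    · rintro ⟨j, rfl⟩
      refine mul_eq_zero_of_right _ (mul_eq_zero_of_right _ ?_)
      have : ∏ k, Real.sinh (v j - v k) = 0 := by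
        refine Finset.prod_eq_zero (Finset.mem_univ j) ?_
        rw [sub_self, Real.sinh_zero]
      exact_mod_cast this
  have hneg : ∀ j, ∃ k, - v j = v k := by
    intro j
    refine (hz _).mp ?_
    have h2 := D.q_neg w hw (I * v j)
    rw [h0 j, mul_zero] at h2
    rw [← h2]
    congr 1
    push_cast
    ring
  have hv' : StrictMono fun j : Fin m => - v (Fin.rev j) := by
    intro i j hij
    exact neg_lt_neg (hv (Fin.rev_lt_rev.mpr hij))
  have hrange : Set.range (fun j : Fin m => - v (Fin.rev j)) = Set.range v := by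
    ext x
    constructor
    · rintro ⟨j, rfl⟩
      obtain ⟨k, hk⟩ := hneg (Fin.rev j)
      exact ⟨k, hk.symm⟩
    · rintro ⟨j, rfl⟩
      obtain ⟨k, hk⟩ := hneg j
      refine ⟨Fin.rev k, ?_⟩
      simp only [Fin.rev_rev]
      linarith
  have hsym : ∀ j, v (Fin.rev j) = - v j := by
    have h3 := (hv'.range_inj hv).mp hrange
    intro j
    have h4 : - v (Fin.rev j) = v j := congrFun h3 j
    linarith
  -- the constant is real
  have hreal : ∃ c : ℝ, (c : ℂ) = K := by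
    have h2 := h1 (Real.pi / 2)
    have h3 : ∀ j, sin ((Real.pi : ℂ) / 2 - I * v j) = ((Real.cosh (v j) : ℝ) : ℂ) := by
      intro j
      rw [Complex.sin_pi_div_two_sub, mul_comm, Complex.cos_mul_I]
      push_cast
      rfl
    simp only [h3] at h2
    have h4 : (∏ j, ((Real.cosh (v j) : ℝ) : ℂ)) = ((∏ j, Real.cosh (v j) : ℝ) : ℂ) := by
      push_cast
      rfl
    rw [h4] at h2
    have hpos : 0 < ∏ j, Real.cosh (v j) := Finset.prod_pos fun j _ => Real.cosh_pos _
    have h5 := D.q_conj w hw (Real.pi / 2)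
    have h6 : (starRingEnd ℂ) ((Real.pi : ℂ) / 2) = (Real.pi : ℂ) / 2 := by
      rw [map_div₀, Complex.conj_ofReal]
      congr 1
      exact Complex.conj_ofReal 2
    rw [h6] at h5
    obtain ⟨r, hr⟩ := Complex.conj_eq_iff_real.mp h5
    refine ⟨r / ∏ j, Real.cosh (v j), ?_⟩
    rw [hr] at h2
    have hne : ((∏ j, Real.cosh (v j) : ℝ) : ℂ) ≠ 0 := by exact_mod_cast hpos.ne'
    rw [Complex.ofReal_div, h2]
    field_simp
  obtain ⟨c, hc'⟩ := hreal
  refine ⟨c, ?_, hsym, fun u => ?_⟩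
  · intro h
    rw [h] at hc'
    exact hK0 (by rw [← hc']; simp)
  · rw [h1 u, pr, hc']

theorem gf_iff (D : GData p r m l) {w : ℝ} (hw : w ∈ Set.Ico 0 la) : GWg p r m w (D.q w) ↔
    ∃ v : Fin m → ℝ, StrictMono v ∧ (∀ j, D.q w (I * v j) = 0) ∧
      ∀ j : Fin m, ZWg p r w v (v j) = Real.pi * (2 * (j : ℕ) + 1 - m) := by
  constructor
  · rintro ⟨c, v, hc, hv, hs, hq, hn⟩
    refine ⟨v, hv, fun j => ?_, hn⟩
    rw [hq, pr_zero_iff hc]
    exact ⟨j, rfl⟩
  · rintro ⟨v, hv, h0, hn⟩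
    obtain ⟨c, hc, hs, hq⟩ := gf_prod D hw hv h0
    exact ⟨c, v, hc, hv, hs, hq, hn⟩

theorem zw_cont (p r : ℕ) {m : ℕ} (j : Fin m) :
    ContinuousOn (fun x : ℝ × (Fin m → ℝ) => ZWg p r x.1 x.2 (x.2 j)) (Set.Ico 0 la ×ˢ Set.univ) := by
  have h := B.zw_cont p j
  have h2 : ContinuousOn (fun x : ℝ × (Fin m → ℝ) => (r : ℝ) * th la (x.2 j))
      (Set.Ico 0 la ×ˢ Set.univ) :=
    Continuous.continuousOn (continuous_const.mul ((th_cont_y la).comp (by fun_prop)))
  refine (h.add h2).congr fun x _ => ?_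
  unfold ZWg ZW
  simp only [Pi.add_apply]
  ring

/-- Product form of `q_w` from `m` real zeros; the zeros are symmetric. -/
theorem q_factor {p r m l : ℕ} (D : GData p r m l) {w : ℝ} (hw : w ∈ Set.Ico 0 la)
    (v : Fin m → ℝ) (hv : StrictMono v) (h0 : ∀ j, D.q w (Complex.I * v j) = 0) :
    (∀ j, v (Fin.rev j) = - v j) ∧ ∃ c : ℝ, c ≠ 0 ∧ ∀ u, D.q w u = pr c v u := by
  obtain ⟨c, hc, hs, hq⟩ := gf_prod D hw hv h0
  exact ⟨hs, c, hc, hq⟩

end Pool.Agent.CYL.BG
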