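import Mathlib
import Pool.Agent.CYL.BG.Base

/-!
# CYL, part B (B4): the set `GG` is closed in `[0, lam)` (helper32)
-/

namespace Pool.Agent.CYL.BG

open Complex Finset Filter Topology Pool.Agent.CYL.B

variable {p r m l : ℕ}

theorem gw_closed (D : GData p r m l) {w : ℕ → ℝ} {w₀ : ℝ} (hw : ∀ n, w n ∈ Set.Ico 0 la)
    (hw₀ : w₀ ∈ Set.Ico 0 la) (hlim : Tendsto w atTop (𝓝 w₀))
    (hG : ∀ n, GWg p r m (w n) (D.q (w n))) : GWg p r m w₀ (D.q w₀) := by
  rw [gf_iff D hw₀]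
  have hG' : ∀ n, ∃ v : Fin m → ℝ, StrictMono v ∧ (∀ j, D.q (w n) (I * v j) = 0) ∧
      ∀ j : Fin m, ZWg p r (w n) v (v j) = Real.pi * (2 * (j : ℕ) + 1 - m) := fun n =>
    (gf_iff D (hw n)).mp (hG n)
  choose v hv h0 hn using hG'
  have hwin : Tendsto w atTop (𝓝[Set.Ico 0 la] w₀) :=
    tendsto_nhdsWithin_iff.mpr ⟨hlim, Eventually.of_forall hw⟩
  -- the zeros are bounded
  obtain ⟨R, hR⟩ : ∃ R : ℝ, ∀ᶠ n in atTop, ∀ j, ‖v n j‖ ≤ R := by
    have hc0 := (ca_coef D hw₀).1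
    have ha : 0 < ‖cf m (D.q w₀) m‖ / 2 := by positivity
    have hcj : ∀ j, Tendsto (fun n => cf m (D.q (w n)) j) atTop (𝓝 (cf m (D.q w₀) j)) := fun j =>
      (ca_cont D j w₀ hw₀).tendsto.comp hwin
    set C : ℝ := ∑ j ∈ range m, (‖cf m (D.q w₀) j‖ + 1) with hC
    have hC0 : 0 ≤ C := Finset.sum_nonneg fun j _ => by positivity
    have e1 : ∀ᶠ n in atTop, ‖cf m (D.q w₀) m‖ / 2 ≤ ‖cf m (D.q (w n)) m‖ := by
      have h1 := (hcj m).norm
      have h2 : ‖cf m (D.q w₀) m‖ / 2 < ‖cf m (D.q w₀) m‖ := by linarith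
      exact (h1.eventually_const_lt h2).mono fun n hn => hn.le
    have e2 : ∀ᶠ n in atTop, ∀ j ∈ range m, ‖cf m (D.q (w n)) j‖ ≤ C := by
      rw [Filter.eventually_all_finset]
      intro j hj
      have h1 := (hcj j).norm
      have h2 : ‖cf m (D.q w₀) j‖ < ‖cf m (D.q w₀) j‖ + 1 := by linarith
      refine (h1.eventually_lt_const h2).mono fun n hn => hn.le.trans ?_
      rw [hC]
      exact Finset.single_le_sum (f := fun j => ‖cf m (D.q w₀) j‖ + 1) (fun j _ => by positivity) hj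
    refine ⟨Real.log (1 + C * m / (‖cf m (D.q w₀) m‖ / 2)) / 2, ?_⟩
    filter_upwards [e1, e2] with n h1 h2 j
    have key : ∀ k, -(2 * v n k) ≤ Real.log (1 + C * m / (‖cf m (D.q w₀) m‖ / 2)) := by
      intro k
      have h3 : tp m (cf m (D.q (w n))) (I * v n k) = 0 := by
        rw [← (ca_coef D (hw n)).2]
        exact h0 n k
      have h4 := fa_bound ha h1 hC0 (fun j hj => h2 j (mem_range.mpr hj)) h3
      rw [← Real.log_exp (-(2 * v n k))]
      exact Real.log_le_log (Real.exp_pos _) h4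
    obtain ⟨c, hc, hs, hq⟩ := gf_prod D (hw n) (hv n) (h0 n)
    have k1 := key j
    have k2 := key (Fin.rev j)
    rw [hs j] at k2
    rw [Real.norm_eq_abs, abs_le]
    constructor <;> linarith
  obtain ⟨v₀, -, φ, hφ, hvφ⟩ := (isCompact_closedBall (0 : Fin m → ℝ) (max R 0)).tendsto_subseq'
    (x := v) (hR.frequently.mono fun n hn => by
      rw [mem_closedBall_zero_iff, pi_norm_le_iff_of_nonneg (le_max_right _ _)]
      exact fun j => (hn j).trans (le_max_left _ _))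
  have hvj : ∀ j, Tendsto (fun n => v (φ n) j) atTop (𝓝 (v₀ j)) := fun j =>
    ((continuous_apply j).tendsto v₀).comp hvφ
  have hwφ : Tendsto (fun n => w (φ n)) atTop (𝓝[Set.Ico 0 la] w₀) := hwin.comp hφ.tendsto_atTop
  have hnum : ∀ j : Fin m, ZWg p r w₀ v₀ (v₀ j) = Real.pi * (2 * (j : ℕ) + 1 - m) := by
    intro j
    have h1 : Tendsto (fun n => (w (φ n), v (φ n))) atTop (𝓝[Set.Ico 0 la ×ˢ Set.univ] (w₀, v₀)) := by
      rw [nhdsWithin_prod_eq, nhdsWithin_univ]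
      exact hwφ.prodMk hvφ
    have h2 := ((zw_cont p r j) (w₀, v₀) ⟨hw₀, trivial⟩).tendsto.comp h1
    have h3 : (fun n => ZWg p r (w (φ n)) (v (φ n)) (v (φ n) j)) =
        fun _ => Real.pi * (2 * (j : ℕ) + 1 - m) := funext fun n => hn (φ n) j
    refine tendsto_nhds_unique h2 ?_
    change Tendsto (fun n => ZWg p r (w (φ n)) (v (φ n)) (v (φ n) j)) atTop _
    rw [h3]
    exact tendsto_const_nhds
  refine ⟨v₀, ?_, fun j => ?_, hnum⟩
  · refine Monotone.strictMono_of_injective ?_ ?_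
    · intro i j hij
      exact le_of_tendsto_of_tendsto' (hvj i) (hvj j) fun n => (hv (φ n)).monotone hij
    · intro i j hij
      have h1 := hnum i
      rw [hij, hnum j] at h1
      have h2 := mul_left_cancel₀ Real.pi_ne_zero h1
      have h3 : ((j : ℕ) : ℝ) = (i : ℕ) := by linarith
      exact (Fin.ext (by exact_mod_cast h3)).symm
  · have h1 : Tendsto (fun n => (w (φ n), I * (v (φ n) j : ℂ))) atTop
        (𝓝[Set.Ico 0 la ×ˢ Set.univ] (w₀, I * (v₀ j : ℂ))) := by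
      rw [nhdsWithin_prod_eq, nhdsWithin_univ]
      refine hwφ.prodMk ?_
      exact ((continuous_const.mul Complex.continuous_ofReal).tendsto (v₀ j)).comp (hvj j)
    have h2 := ((ca_joint D) (w₀, I * (v₀ j : ℂ)) ⟨hw₀, trivial⟩).tendsto.comp h1
    have h3 : (fun n => D.q (w (φ n)) (I * v (φ n) j)) = fun _ => (0 : ℂ) :=
      funext fun n => h0 (φ n) j
    refine tendsto_nhds_unique h2 ?_
    change Tendsto (fun n => D.q (w (φ n)) (I * v (φ n) j)) atTop _
    rw [h3]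
    exact tendsto_const_nhds

end Pool.Agent.CYL.BG
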