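import Pool.Agent.CYL.BG.Two
import Pool.Agent.CYL.BG.Base
import Pool.Agent.CYL.B.Real

/-!
CYL, part B, (B2): the Bethe equations in real form.
-/

namespace Pool.Agent.CYL.BG

open Filter Topology Finset Pool.Agent.CYL.B

/-- (B2): if `q_w` has product form, `B(y) = (-1)^m |B(y)| e^(i Z_w(y) / 2)`, `B(y) ≠ 0`. -/
theorem BB_polar {p r m l : ℕ} (D : GData p r m l) {w : ℝ} (hw : w ∈ Set.Ico 0 la)
    {c : ℝ} (hc : c ≠ 0) {v : Fin m → ℝ} (hq : ∀ u, D.q w u = pr c v u) (y : ℝ) :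
    BB D w y ≠ 0 ∧
    BB D w y = (-1) ^ m * ((‖BB D w y‖ : ℂ) * Complex.exp (Complex.I * (ZWg p r w v y / 2))) := by
  have s1 := sin_sub_pos hw
  have s2 := sin_add_pos hw
  have s3 := sin_la_pos
  have s4 := sin_two_la_pos
  -- the factors
  have eA : ffg p r w (la + Complex.I * y) =
      (Complex.sin (((la - w : ℝ) : ℂ) + Complex.I * y) *
        Complex.sin (((la + w : ℝ) : ℂ) + Complex.I * y)) ^ p *
        Complex.sin (la + Complex.I * y) ^ r := by
    unfold ffg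
    congr 3
    · congr 1; push_cast; ring
    · congr 1; push_cast; ring
  have eB : pr c v (la + Complex.I * y) =
      c * ∏ j, Complex.sin ((la : ℂ) + Complex.I * ((y - v j : ℝ) : ℂ)) := by
    unfold pr
    congr 1
    apply Finset.prod_congr rfl
    intro j _
    congr 1; push_cast; ring
  have eC : pr c v (-(2 * la) + Complex.I * y) =
      c * ∏ j, Complex.sin (-((2 * la : ℝ) : ℂ) + Complex.I * ((y - v j : ℝ) : ℂ)) := by
    unfold pr
    congr 1
    apply Finset.prod_congr rfl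
    intro j _
    congr 1; push_cast; ring
  -- polar forms
  have pA1 := sin_polar s1 y
  have pA2 := sin_polar s2 y
  have pA3 := sin_polar s3 y
  have nA1 := sin_ne s1.ne' y
  have nA2 := sin_ne s2.ne' y
  have nA3 := sin_ne s3.ne' y
  have pB : ∏ j, Complex.sin ((la : ℂ) + Complex.I * ((y - v j : ℝ) : ℂ)) =
      ((‖∏ j, Complex.sin ((la : ℂ) + Complex.I * ((y - v j : ℝ) : ℂ))‖ : ℝ) : ℂ) *
        Complex.exp (Complex.I * (((∑ j, th la (y - v j) : ℝ) : ℂ) / 2)) :=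
    prod_polar _ _ (fun j => sin_polar s3 (y - v j))
  have pC : ∏ j, (-Complex.sin (-((2 * la : ℝ) : ℂ) + Complex.I * ((y - v j : ℝ) : ℂ))) =
      ((‖∏ j, (-Complex.sin (-((2 * la : ℝ) : ℂ) + Complex.I * ((y - v j : ℝ) : ℂ)))‖ : ℝ) : ℂ) *
        Complex.exp (Complex.I * (((∑ j, (-th (2 * la) (y - v j)) : ℝ) : ℂ) / 2)) := by
    apply prod_polar
    intro j
    have h := sin_polar_neg s4 (y - v j)
    rw [norm_neg]
    conv_lhs => rw [h]
    rw [neg_neg]
    congr 2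
    push_cast; ring
  have eC2 : ∏ j, Complex.sin (-((2 * la : ℝ) : ℂ) + Complex.I * ((y - v j : ℝ) : ℂ)) =
      (-1) ^ m * ∏ j, (-Complex.sin (-((2 * la : ℝ) : ℂ) + Complex.I * ((y - v j : ℝ) : ℂ))) := by
    rw [Finset.prod_neg, Finset.card_univ, Fintype.card_fin, ← mul_assoc, neg_one_pow_sq, one_mul]
  set PB := ∏ j, Complex.sin ((la : ℂ) + Complex.I * ((y - v j : ℝ) : ℂ)) with hPB
  set PC := ∏ j, (-Complex.sin (-((2 * la : ℝ) : ℂ) + Complex.I * ((y - v j : ℝ) : ℂ))) with hPC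
  have nB : PB ≠ 0 := by
    rw [hPB]; exact Finset.prod_ne_zero_iff.mpr (fun j _ => sin_ne s3.ne' _)
  have nC : PC ≠ 0 := by
    rw [hPC]
    apply Finset.prod_ne_zero_iff.mpr
    intro j _
    apply neg_ne_zero.mpr
    have : Real.sin (-(2 * la)) ≠ 0 := by rw [Real.sin_neg]; exact neg_ne_zero.mpr s4.ne'
    have h := sin_ne this (y - v j)
    have e : ((-(2 * la) : ℝ) : ℂ) = -((2 * la : ℝ) : ℂ) := by push_cast; ring
    rw [e] at h
    exact h
  set A1 := Complex.sin (((la - w : ℝ) : ℂ) + Complex.I * y) with hA1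
  set A2 := Complex.sin (((la + w : ℝ) : ℂ) + Complex.I * y) with hA2
  set A3 := Complex.sin ((la : ℂ) + Complex.I * y) with hA3
  have hB : BB D w y = (-1) ^ m * ((A1 * A2) ^ p * A3 ^ r * ((c : ℂ) ^ 2 * (PB * PC))) := by
    unfold BB
    rw [hq, hq, eA, eB, eC, eC2]
    ring
  have hcc : (c : ℂ) ≠ 0 := by exact_mod_cast hc
  have hne : BB D w y ≠ 0 := by
    rw [hB]
    refine mul_ne_zero (pow_ne_zero _ (by norm_num)) (mul_ne_zero (mul_ne_zero
      (pow_ne_zero _ (mul_ne_zero nA1 nA2)) (pow_ne_zero _ nA3))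
      (mul_ne_zero (pow_ne_zero _ hcc) (mul_ne_zero nB nC)))
  refine ⟨hne, ?_⟩
  have hnorm : ‖BB D w y‖ = (‖A1‖ * ‖A2‖) ^ p * ‖A3‖ ^ r * (c ^ 2 * (‖PB‖ * ‖PC‖)) := by
    rw [hB]
    simp [norm_pow]
  rw [hnorm]
  conv_lhs => rw [hB, pA1, pA2, pA3, pB, pC]
  have hexp : Complex.exp (Complex.I * (ZWg p r w v y / 2)) =
      (Complex.exp (Complex.I * (th (la - w) y / 2)) * Complex.exp (Complex.I * (th (la + w) y / 2))) ^ p *
      Complex.exp (Complex.I * (th la y / 2)) ^ r *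
      (Complex.exp (Complex.I * (((∑ j, th la (y - v j) : ℝ) : ℂ) / 2)) *
        Complex.exp (Complex.I * (((∑ j, (-th (2 * la) (y - v j)) : ℝ) : ℂ) / 2))) := by
    rw [← Complex.exp_add, ← Complex.exp_add, ← Complex.exp_nat_mul, ← Complex.exp_nat_mul,
      ← Complex.exp_add, ← Complex.exp_add]
    congr 1
    unfold ZWg Th
    rw [Finset.sum_sub_distrib, Finset.sum_neg_distrib]
    push_cast
    ring
  rw [hexp]
  push_cast
  ring

/-- Quantisation: `Z_w ∈ 2 pi (ℤ + (m + 1) / 2)` at the roots. -/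
theorem quant {p r m l : ℕ} (D : GData p r m l) {w : ℝ} (hw : w ∈ Set.Ico 0 la)
    {c : ℝ} (hc : c ≠ 0) {v : Fin m → ℝ} (hq : ∀ u, D.q w u = pr c v u) (j : Fin m) :
    ∃ k : ℤ, ZWg p r w v (v j) = Real.pi * (2 * k + 1 - m) := by
  obtain ⟨hne, hpol⟩ := BB_polar D hw hc hq (v j)
  have h0 : D.q w (Complex.I * (v j)) = 0 := by
    rw [hq, pr_eq_zero_iff hc]
    exact ⟨j, rfl⟩
  exact (phase_iff m hne hpol).mp (BB_zero_of_root D hw h0)

/-- `Z` is odd for symmetric roots. -/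
theorem ZWg_neg (p r : ℕ) (w : ℝ) {m : ℕ} {v : Fin m → ℝ} (hv : ∀ j, v (Fin.rev j) = - v j)
    (y : ℝ) : ZWg p r w v (-y) = - ZWg p r w v y := by
  unfold ZWg
  rw [sum_Th_neg hv, B.th_neg, B.th_neg, B.th_neg]; ring

theorem ZWg_zero_eq (p r : ℕ) {m : ℕ} (v : Fin m → ℝ) (y : ℝ) :
    ZWg p r 0 v y = ZH (2 * p + r) v y := by
  unfold ZWg ZH
  rw [sub_zero, add_zero]; push_cast; ring

theorem HB_of_GWg {p r m : ℕ} {q : ℂ → ℂ} (h : GWg p r m 0 q) : HB (2 * p + r) m q := by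
  obtain ⟨c, v, h1, h2, h3, h4, h5⟩ := h
  exact ⟨c, v, h1, h2, h3, h4, fun j => by rw [← ZWg_zero_eq]; exact h5 j⟩

theorem ZWg_eq (p r : ℕ) (w : ℝ) {m : ℕ} (v : Fin m → ℝ) (y : ℝ) :
    ZWg p r w v y = ZW p w v y + r * th la y := by
  unfold ZWg ZW; ring

theorem ZWg_continuous (p r : ℕ) (w : ℝ) {m : ℕ} (v : Fin m → ℝ) : Continuous (ZWg p r w v) := by
  have h : ZWg p r w v = fun y => ZW p w v y + r * th la y := funext (ZWg_eq p r w v)
  rw [h]
  exact (ZW_continuous p w v).add (continuous_const.mul (th_continuous la))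

end Pool.Agent.CYL.BG
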