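import Mathlib
import Pool.Agent.CYL.BG.Base
import Pool.Agent.CYL.BG.Real

/-!
# CYL, part B (B4): the set `GG` is open in `[0, lam)` (helper32)
-/

namespace Pool.Agent.CYL.BG

open Complex Finset Filter Topology Pool.Agent.CYL.B

variable {p r m l : ℕ}

/-- the real function `i^(-m) q_w (i t)` -/
noncomputable def op_r (D : GData p r m l) (w t : ℝ) : ℝ := (D.q w (I * t) / I ^ m).re

theorem op_r_eq (D : GData p r m l) {w : ℝ} (hw : w ∈ Set.Ico 0 la) (t : ℝ) :
    D.q w (I * t) = I ^ m * (op_r D w t : ℂ) := by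
  have hI : (I : ℂ) ^ m ≠ 0 := pow_ne_zero _ I_ne_zero
  have h1 : (starRingEnd ℂ) (D.q w (I * t)) = (-1) ^ m * D.q w (I * t) := by
    rw [D.q_conj w hw, ← D.q_neg w hw]
    congr 1
    simp
  have h2 : (starRingEnd ℂ) (D.q w (I * t) / I ^ m) = D.q w (I * t) / I ^ m := by
    have h3 : ((-1 : ℂ)) ^ m ≠ 0 := pow_ne_zero _ (by norm_num)
    rw [map_div₀, map_pow, Complex.conj_I, h1, neg_pow I m, mul_div_mul_left _ _ h3]
  rw [op_r, Complex.conj_eq_iff_re.mp h2]
  field_simp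

theorem op_r_cont_w (D : GData p r m l) (t : ℝ) : ContinuousOn (fun w => op_r D w t) (Set.Ico 0 la) := by
  unfold op_r
  exact Complex.continuous_re.comp_continuousOn ((D.q_cont _).div_const _)

theorem op_r_cont_t (D : GData p r m l) {w : ℝ} (hw : w ∈ Set.Ico 0 la) : Continuous (op_r D w) := by
  have h1 : Continuous (D.q w) := by
    have h2 : D.q w = tp m (cf m (D.q w)) := funext (ca_coef D hw).2
    rw [h2]
    exact fa_cont _ _
  unfold op_r
  exact Complex.continuous_re.comp ((h1.comp (continuous_const.mul Complex.continuous_ofReal)).div_const _)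

theorem gw_open (D : GData p r m l) {w₀ : ℝ} (hw₀ : w₀ ∈ Set.Ico 0 la) (hG : GWg p r m w₀ (D.q w₀)) :
    ∀ᶠ w in 𝓝[Set.Ico 0 la] w₀, GWg p r m w (D.q w) := by
  obtain ⟨c, v, hc, hv, -, hq, hn⟩ := hG
  have e1 : ∀ᶠ x in 𝓝[Set.Ico 0 la] w₀ ×ˢ 𝓝 v, ∀ j, |ZWg p r x.1 x.2 (x.2 j) - ZWg p r w₀ v (v j)| < Real.pi := by
    rw [Filter.eventually_all]
    intro j
    have h1 := (zw_cont p r j) (w₀, v) ⟨hw₀, trivial⟩
    rw [ContinuousWithinAt, nhdsWithin_prod_eq, nhdsWithin_univ] at h1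
    have h2 := h1.sub_const (ZWg p r w₀ v (v j))
    rw [sub_self] at h2
    have h3 := h2.abs
    rw [abs_zero] at h3
    exact h3.eventually_lt_const Real.pi_pos
  obtain ⟨pa, hpa, pb, hpb, hab⟩ := Filter.eventually_prod_iff.mp e1
  obtain ⟨δ₁, hδ₁, hpb'⟩ := Metric.eventually_nhds_iff.mp hpb
  have e2 : ∀ᶠ δ : ℝ in 𝓝[>] 0, (δ < δ₁) ∧ ∀ i j, i ≠ j → 2 * δ < |v i - v j| := by
    refine Filter.Eventually.and ?_ ?_
    · exact (eventually_lt_nhds hδ₁).filter_mono nhdsWithin_le_nhds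
    · rw [Filter.eventually_all]
      intro i
      rw [Filter.eventually_all]
      intro j
      by_cases hij : i = j
      · exact Eventually.of_forall fun δ h => absurd hij h
      · have h1 : 0 < |v i - v j| / 2 := by
          have : v i - v j ≠ 0 := sub_ne_zero.mpr fun h => hij (hv.injective h)
          positivity
        refine (eventually_lt_nhds h1).filter_mono nhdsWithin_le_nhds |>.mono fun δ hδ _ => ?_
        linarith
  obtain ⟨δ, ⟨hδ1, hsep⟩, hδ⟩ := (e2.and self_mem_nhdsWithin).exists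
  have hδ : 0 < δ := hδ
  have hr0 : ∀ t, op_r D w₀ t = c * ∏ j, Real.sinh (t - v j) := by
    intro t
    have h1 := op_r_eq D hw₀ t
    rw [hq, pr, fa_sinI] at h1
    have hI : (I : ℂ) ^ m ≠ 0 := pow_ne_zero _ I_ne_zero
    have h2 : ((c * ∏ j, Real.sinh (t - v j) : ℝ) : ℂ) = (op_r D w₀ t : ℂ) := by
      apply mul_left_cancel₀ hI
      rw [← h1]
      push_cast
      ring
    exact (Complex.ofReal_injective h2).symm
  have e3 : ∀ᶠ w in 𝓝[Set.Ico 0 la] w₀, ∀ j, op_r D w (v j - δ) * op_r D w (v j + δ) < 0 := by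
    rw [Filter.eventually_all]
    intro j
    have h1 : op_r D w₀ (v j - δ) * op_r D w₀ (v j + δ) < 0 := by
      rw [hr0, hr0]
      have h2 := fa_sign (y := v) (j := j) hδ fun k hk => by
        have := hsep j k (Ne.symm hk)
        linarith
      have h3 : 0 < c ^ 2 := by positivity
      nlinarith
    have h2 := ((op_r_cont_w D (v j - δ)).mul (op_r_cont_w D (v j + δ))) w₀ hw₀
    exact h2.tendsto.eventually_lt_const h1
  filter_upwards [hpa, e3, self_mem_nhdsWithin] with w hwa hw3 hw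
  have hroot : ∀ j, ∃ t, v j - δ < t ∧ t < v j + δ ∧ op_r D w t = 0 := by
    intro j
    have hcont := (op_r_cont_t D hw).continuousOn (s := Set.Icc (v j - δ) (v j + δ))
    have hle : v j - δ ≤ v j + δ := by linarith
    rcases mul_neg_iff.mp (hw3 j) with ⟨h1, h2⟩ | ⟨h1, h2⟩
    · obtain ⟨t, ht, ht0⟩ := intermediate_value_Ioo' hle hcont ⟨h2, h1⟩
      exact ⟨t, ht.1, ht.2, ht0⟩
    · obtain ⟨t, ht, ht0⟩ := intermediate_value_Ioo hle hcont ⟨h1, h2⟩
      exact ⟨t, ht.1, ht.2, ht0⟩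
  choose v' hv1 hv2 hv0 using hroot
  have hv' : StrictMono v' := by
    intro i j hij
    have h1 := hsep j i hij.ne'
    have h2 := hv hij
    rw [abs_of_pos (by linarith)] at h1
    linarith [hv2 i, hv1 j]
  have hz : ∀ j, D.q w (I * v' j) = 0 := by
    intro j
    rw [op_r_eq D hw, hv0 j]
    simp
  rw [gf_iff D hw]
  refine ⟨v', hv', hz, fun j => ?_⟩
  obtain ⟨c', hc', -, hq'⟩ := gf_prod D hw hv' hz
  obtain ⟨k, hk⟩ := quant D hw hc' hq' j
  have hd : dist v' v < δ₁ := by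
    rw [dist_pi_lt_iff hδ₁]
    intro j
    rw [Real.dist_eq, abs_lt]
    constructor <;> linarith [hv1 j, hv2 j]
  have h1 : |ZWg p r w v' (v' j) - ZWg p r w₀ v (v j)| < Real.pi := hab hwa (hpb' hd) j
  rw [hk, hn j, ← mul_sub, abs_mul, abs_of_pos Real.pi_pos] at h1
  have h2 : |(2 * (k : ℝ) + 1 - m) - (2 * ((j : ℕ) : ℝ) + 1 - m)| < 1 := by
    by_contra h
    push Not at h
    have := mul_le_mul_of_nonneg_left h Real.pi_pos.le
    linarith
  rw [abs_lt] at h2
  have h3 : (k : ℤ) = (j : ℕ) := by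
    have a1 : (-1 : ℝ) < 2 * (k : ℝ) - 2 * ((j : ℕ) : ℝ) := by linarith [h2.1]
    have a2 : 2 * (k : ℝ) - 2 * ((j : ℕ) : ℝ) < 1 := by linarith [h2.2]
    have b1 : (-1 : ℤ) < 2 * k - 2 * ((j : ℕ) : ℤ) := by exact_mod_cast a1
    have b2 : 2 * k - 2 * ((j : ℕ) : ℤ) < 1 := by exact_mod_cast a2
    omega
  rw [hk]
  have h4 : (k : ℝ) = ((j : ℕ) : ℝ) := by exact_mod_cast h3
  rw [h4]

end Pool.Agent.CYL.BG
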