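import Mathlib
import Pool.Agent.CYL.BG.Closed
import Pool.Agent.CYL.BG.Open

/-!
# CYL, part B (B4): the homotopy (helper32)
-/

namespace Pool.Agent.CYL.BG

open Complex Finset Filter Topology Pool.Agent.CYL.B

variable {p r m l : ℕ}

/-- the set `GG` is `[0, lam)` if it is not empty -/
theorem gw_all (D : GData p r m l) {w₁ : ℝ} (hw₁ : w₁ ∈ Set.Ico 0 la) (h : GWg p r m w₁ (D.q w₁)) {w : ℝ}
    (hw : w ∈ Set.Ico 0 la) : GWg p r m w (D.q w) := by
  have : PreconnectedSpace (Set.Ico 0 la) := Subtype.preconnectedSpace isPreconnected_Ico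
  set S : Set (Set.Ico 0 la) := {x | GWg p r m x.1 (D.q x.1)} with hS
  have hopen : IsOpen S := by
    rw [isOpen_iff_mem_nhds]
    intro x hx
    have h1 := gw_open D x.2 hx
    rw [nhdsWithin_eq_map_subtype_coe x.2] at h1
    exact h1
  have hclosed : IsClosed S := by
    refine IsSeqClosed.isClosed ?_
    intro x y hx hxy
    exact gw_closed D (fun n => (x n).2) y.2 ((continuous_subtype_val.tendsto y).comp hxy) hx
  have huniv : S = Set.univ := IsClopen.eq_univ ⟨hclosed, hopen⟩ ⟨⟨w₁, hw₁⟩, h⟩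
  have : (⟨w, hw⟩ : Set.Ico 0 la) ∈ S := by
    rw [huniv]
    trivial
  exact this

/-- **(B4)**: if `GG` is not empty then `H(2 p + r)` holds -/
theorem hb_of_start (D : GData p r m l) {w₁ : ℝ} (hw₁ : w₁ ∈ Set.Ico 0 la) (h : GWg p r m w₁ (D.q w₁)) :
    HB (2 * p + r) m (D.q 0) :=
  HB_of_GWg (gw_all D hw₁ h ⟨le_rfl, gf_la_pos⟩)

end Pool.Agent.CYL.BG
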