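import Pool.Agent.CYL.BG.St3
import Pool.Agent.CYL.BG.Real
import Pool.Agent.CYL.B.Start4

/-!
# CYL, part B for general `(p, r)`: the start of the homotopy, inner roots (port of B/Start4)
-/

namespace Pool.Agent.CYL.BG.St

open Filter Topology ComplexConjugate
open Complex hiding two_sin
open Pool.Agent.CYL.B hiding la_pos th_neg th_zero neg_one_pow_eq sin_la_pos Th_neg
open Pool.Agent.CYL.B.St

/-- polar form of the limit of `F` -/
theorem FS_polar {p rr m1 : ℕ} {κ c : ℝ} (hκ : κ ≠ 0) (hc : c ≠ 0) (v : Fin m1 → ℝ) {qs : ℂ → ℂ}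
    (hqs : ∀ u, qs u = κ * Complex.sin u ^ p * pr c v u) (y : ℝ) :
    ∃ ρ : ℝ, 0 < ρ ∧ FS p rr qs y = (-1) ^ (p + m1) * (ρ * ep (ZH (p + rr) v y / (2 * Real.pi))) := by
  obtain ⟨ρ1, h1, e1⟩ := two_sin y
  obtain ⟨ρ2, h2, e2⟩ := pr_phase hc v y
  obtain ⟨ρ3, h3, e3⟩ := sin_ep (a := 2 * la) (sin_la_pos (by linarith [la_pos]) (by linarith [la_pos])) y
  obtain ⟨ρ4, h4, e40⟩ := sin_ep (a := la) (sin_la_pos la_pos (by linarith [la_pos])) y
  refine ⟨κ ^ 2 * ρ3 ^ p * ρ1 ^ p * ρ2 * ρ4 ^ rr, by positivity, ?_⟩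
  unfold FS
  rw [e3, hqs, hqs]
  have e4 : (ρ3 * ep (th (2 * la) y / (2 * Real.pi)) : ℂ) ^ p * Complex.sin (la + I * y) ^ rr *
      (κ * Complex.sin (la + I * y) ^ p * pr c v (la + I * y)) *
      (κ * Complex.sin (-(2 * la) + I * y) ^ p * pr c v (-(2 * la) + I * y)) =
      κ ^ 2 * (ρ3 * ep (th (2 * la) y / (2 * Real.pi))) ^ p * Complex.sin (la + I * y) ^ rr *
        (Complex.sin (la + I * y) * Complex.sin (-(2 * la) + I * y)) ^ p *
        (pr c v (la + I * y) * pr c v (-(2 * la) + I * y)) := by ring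
  rw [e4, e1, e2, e40]
  have e5 : ep (ZH (p + rr) v y / (2 * Real.pi)) = ep (th (2 * la) y / (2 * Real.pi)) ^ p *
      ep (th la y / (2 * Real.pi)) ^ rr *
      ep (-(Th y / (2 * Real.pi))) ^ p * ep (-(∑ j, Th (y - v j)) / (2 * Real.pi)) := by
    rw [← ep_nsmul, ← ep_nsmul, ← ep_nsmul, ← ep_add, ← ep_add, ← ep_add]
    congr 1
    unfold ZH Th
    push_cast
    ring
  rw [e5]
  push_cast
  ring

/-- the argument of the limit -/
theorem FS_ratio {p rr m1 : ℕ} {κ c : ℝ} (hκ : κ ≠ 0) (hc : c ≠ 0) {v : Fin m1 → ℝ}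
    (hv : ∀ j, v (Fin.rev j) = - v j) {qs : ℂ → ℂ}
    (hqs : ∀ u, qs u = κ * Complex.sin u ^ p * pr c v u) {y : ℝ} (hy : |ZH (p + rr) v y| < Real.pi) :
    FS p rr qs y / FS p rr qs 0 ∈ Complex.slitPlane ∧
      Complex.arg (FS p rr qs y / FS p rr qs 0) = ZH (p + rr) v y / 2 := by
  obtain ⟨ρ1, h1, e1⟩ := FS_polar hκ hc v hqs y
  obtain ⟨ρ0, h0, e0⟩ := FS_polar hκ hc v hqs 0
  rw [ZH_zero hv, zero_div, ep_zero, mul_one] at e0
  have hpi := Real.pi_pos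
  have e2 : FS p rr qs y / FS p rr qs 0 = ((ρ1 / ρ0 : ℝ) : ℂ) * ep (ZH (p + rr) v y / (2 * Real.pi)) := by
    rw [e1, e0]
    have h3 : ((-1 : ℂ)) ^ (p + m1) ≠ 0 := pow_ne_zero _ (by norm_num)
    have h4 : (ρ0 : ℂ) ≠ 0 := by exact_mod_cast h0.ne'
    push_cast
    field_simp
  have h5 := abs_lt.mp hy
  have h6 : -1 < ZH (p + rr) v y / (2 * Real.pi) := by
    rw [lt_div_iff₀ (by positivity)]
    linarith
  have h7 : ZH (p + rr) v y / (2 * Real.pi) ≤ 1 := by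
    rw [div_le_iff₀ (by positivity)]
    linarith
  have e3 : Complex.arg (FS p rr qs y / FS p rr qs 0) = ZH (p + rr) v y / 2 := by
    rw [e2, arg_ep (div_pos h1 h0) h6 h7]
    field_simp
  refine ⟨?_, e3⟩
  rw [Complex.mem_slitPlane_iff_arg, e3]
  refine ⟨by linarith, ?_⟩
  rw [e2]
  exact mul_ne_zero (by exact_mod_cast (div_pos h1 h0).ne') (ep_ne _)

theorem FS_zero_ne {p rr m1 : ℕ} {κ c : ℝ} (hκ : κ ≠ 0) (hc : c ≠ 0) (v : Fin m1 → ℝ) {qs : ℂ → ℂ}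
    (hqs : ∀ u, qs u = κ * Complex.sin u ^ p * pr c v u) : FS p rr qs 0 ≠ 0 := by
  obtain ⟨ρ0, h0, e0⟩ := FS_polar hκ hc v hqs 0
  rw [e0]
  exact mul_ne_zero (pow_ne_zero _ (by norm_num)) (mul_ne_zero (by exact_mod_cast h0.ne') (ep_ne _))

/-- the number of `y` -/
noncomputable def zt {p rr m l : ℕ} (D : GData p rr m l) (w y : ℝ) : ℝ :=
  p * (th (la - w) y / (2 * Real.pi)) + ph (FF D w) y

theorem BB_zt {p rr m l : ℕ} (D : GData p rr m l) {w : ℝ} (hw : w ∈ Set.Ico 0 la) {y : ℝ}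
    (h0 : FF D w 0 ≠ 0) (hs : FF D w y / FF D w 0 ∈ Complex.slitPlane) :
    ∃ ρ : ℝ, ρ ≠ 0 ∧ BB D w y = ρ * ep (zt D w y) := by
  have hre : FF D w 0 = ((FF D w 0).re : ℂ) := by
    have h1 := FF_neg D hw 0
    rw [neg_zero] at h1
    exact (Complex.conj_eq_iff_re.mp h1.symm).symm
  have hre0 : (FF D w 0).re ≠ 0 := by
    intro h
    rw [h] at hre
    exact h0 (by rw [hre]; simp)
  obtain ⟨ρ1, h1, e1⟩ := sin_ep (a := la - w) (sin_la_pos (by linarith [hw.2]) (by linarith [hw.1, la_pos])) y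
  have hn : ‖FF D w y / FF D w 0‖ ≠ 0 := norm_ne_zero_iff.mpr (Complex.slitPlane_ne_zero hs)
  refine ⟨ρ1 ^ p * ((FF D w 0).re * ‖FF D w y / FF D w 0‖),
    mul_ne_zero (pow_ne_zero _ h1.ne') (mul_ne_zero hre0 hn), ?_⟩
  have e2 := ph_spec (FF D w) h0 y
  rw [BB_eq, e1]
  unfold zt
  rw [ep_add, ep_nsmul, mul_pow]
  rw [Complex.ofReal_mul, Complex.ofReal_mul, ← hre, Complex.ofReal_pow]
  set N : ℂ := ((‖FF D w y / FF D w 0‖ : ℝ) : ℂ) with hN
  rw [e2]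
  ring

/-- the good set of `w` for the inner roots -/
structure Good {p rr m l : ℕ} (D : GData p rr m l) (w d : ℝ) : Prop where
  ne : FF D w 0 ≠ 0
  slit : ∀ y ∈ Set.Icc (-d) d, FF D w y / FF D w 0 ∈ Complex.slitPlane
  GG : ∀ y ∈ Set.Icc (-d) d, GG D w y ≠ 0
  big : (p : ℝ) / 2 < zt D w d

theorem zt_continuousOn {p rr m l : ℕ} (D : GData p rr m l) {w d : ℝ} (hw : w ∈ Set.Ico 0 la)
    (hg : Good D w d) : ContinuousOn (zt D w) (Set.Icc (-d) d) := by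
  unfold zt
  refine ContinuousOn.add ?_ (ph_continuousOn (FF_continuous D hw).continuousOn hg.slit)
  have h1 := th_continuous (la - w)
  exact (continuous_const.mul (h1.div_const _)).continuousOn

theorem zt_neg {p rr m l : ℕ} (D : GData p rr m l) {w d : ℝ} (hw : w ∈ Set.Ico 0 la)
    (hg : Good D w d) {y : ℝ} (hy : y ∈ Set.Icc (-d) d) : zt D w (-y) = - zt D w y := by
  unfold zt
  rw [ph_neg (FF_neg D hw) (hg.slit y hy), th_neg]
  ring

theorem zt_zero {p rr m l : ℕ} (D : GData p rr m l) {w d : ℝ} (hg : Good D w d) : zt D w 0 = 0 := by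
  unfold zt
  rw [ph_zero _ hg.ne, th_zero]
  ring

/-- the inner roots -/
theorem inner {p rr m l : ℕ} (D : GData p rr m l) {w d : ℝ} (hw : w ∈ Set.Ico 0 la) (hd : 0 < d)
    (hg : Good D w d) : ∃ r : ℝ → ℝ,
    (∀ t, |t| ≤ (p : ℝ) / 2 → r t ∈ Set.Ioo (-d) d ∧ zt D w (r t) = t) ∧
    (∀ s t, |s| ≤ (p : ℝ) / 2 → |t| ≤ (p : ℝ) / 2 → s < t → r s < r t) ∧
    ∀ k : ℤ, |((m : ℝ) + 1) / 2 + k| ≤ (p : ℝ) / 2 → D.q w (I * r (((m : ℝ) + 1) / 2 + k)) = 0 := by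
  have h1 : zt D w (-d) < -((p : ℝ) / 2) := by
    rw [zt_neg D hw hg ⟨by linarith, le_refl d⟩]
    linarith [hg.big]
  obtain ⟨r, hr1, hr2⟩ := mono_select hd (zt_continuousOn D hw hg) h1 hg.big
  refine ⟨r, hr1, hr2, ?_⟩
  intro k hk
  obtain ⟨h3, h4⟩ := hr1 _ hk
  have h5 : r (((m : ℝ) + 1) / 2 + k) ∈ Set.Icc (-d) d := ⟨h3.1.le, h3.2.le⟩
  apply root_of_BB_zero D hw (hg.GG _ h5)
  obtain ⟨ρ, hρ, e⟩ := BB_zt D hw hg.ne (hg.slit _ h5)
  rw [e]
  exact (zero_iff hρ m).mpr ⟨k, h4⟩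

/-- comparison with the counting function -/
theorem ZWg_eq_zt {p rr m l : ℕ} (D : GData p rr m l) {w d : ℝ} (hw : w ∈ Set.Ico 0 la)
    (hg : Good D w d) {c : ℝ} (hc : c ≠ 0) {v : Fin m → ℝ} (hv : ∀ j, v (Fin.rev j) = - v j)
    (hq : ∀ u, D.q w u = pr c v u) {y : ℝ} (hy : y ∈ Set.Icc (-d) d) :
    ZWg p rr w v y = 2 * Real.pi * zt D w y := by
  have hpi := Real.pi_pos
  have h := eq_of_int (f := fun y => ZWg p rr w v y / (2 * Real.pi)) (g := zt D w) (d := d)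
    ((ZWg_continuous p rr w v).div_const _).continuousOn (zt_continuousOn D hw hg) (by
      have h1 := ZWg_neg p rr w hv 0
      rw [neg_zero] at h1
      have h2 : ZWg p rr w v 0 = 0 := by linarith
      rw [h2, zt_zero D hg, zero_div]) (by
      intro z hz
      obtain ⟨ρ, hρ, e⟩ := BB_zt D hw hg.ne (hg.slit z hz)
      obtain ⟨h3, e2⟩ := BB_polar D hw hc hq z
      have h4 : ‖BB D w z‖ ≠ 0 := norm_ne_zero_iff.mpr h3
      have e3 : Complex.exp (Complex.I * (ZWg p rr w v z / 2)) = ep (ZWg p rr w v z / (2 * Real.pi)) := by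
        unfold ep
        congr 1
        push_cast
        field_simp
      rw [e3, neg_one_pow_eq] at e2
      rw [e] at e2
      set N := ‖(ρ : ℂ) * ep (zt D w z)‖ with hN
      have hN' : N = |ρ| := by
        rw [hN, norm_mul, norm_ep, mul_one, Complex.norm_real, Real.norm_eq_abs]
      -- `ρ ep(zt) = ep m * (|ρ| ep(Z))`
      have e4 : ep (2 * zt D w z) = ep (2 * (ZWg p rr w v z / (2 * Real.pi))) := by
        have h5 : ((ρ : ℂ) * ep (zt D w z)) ^ 2 = (ep m * ((N : ℂ) * ep (ZWg p rr w v z / (2 * Real.pi)))) ^ 2 := by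
          rw [← e2]
        have h6 : ep (m : ℝ) ^ 2 = 1 := by
          rw [← neg_one_pow_eq, ← pow_mul, mul_comm, pow_mul]
          norm_num
        have h7 : (N : ℂ) ^ 2 = (ρ : ℂ) ^ 2 := by
          rw [hN', ← Complex.ofReal_pow, sq_abs, Complex.ofReal_pow]
        have h8 : (ρ : ℂ) ^ 2 ≠ 0 := pow_ne_zero _ (by exact_mod_cast hρ)
        have h9 : ∀ t : ℝ, ep (2 * t) = ep t ^ 2 := by
          intro t
          rw [two_mul, ep_add, sq]
        rw [h9, h9]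
        rw [mul_pow, mul_pow, mul_pow, h6, h7, one_mul] at h5
        exact mul_left_cancel₀ h8 h5
      obtain ⟨k, hk⟩ := (ep_eq_iff _ _).mp e4
      refine ⟨-k, ?_⟩
      push_cast
      linarith) y hy
  beta_reduce at h
  rw [← h]
  field_simp

theorem FF_pt {p rr m l : ℕ} (D : GData p rr m l) {w : ℕ → ℝ} (hw : ∀ n, w n ∈ Set.Ico 0 la)
    (hl : Tendsto w atTop (𝓝 la))
    {qs : ℂ → ℂ} (h : ∀ u, Tendsto (fun n => D.q (w n) u) atTop (𝓝 (qs u))) (y : ℝ) :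
    Tendsto (fun n => FF D (w n) y) atTop (𝓝 (FS p rr qs y)) := by
  have h1 : Tendsto (fun n : ℕ => (n, y)) atTop (atTop ×ˢ 𝓝 y) :=
    tendsto_id.prodMk tendsto_const_nhds
  exact Filter.Tendsto.comp (g := fun x : ℕ × ℝ => FF D (w x.1) x.2) (f := fun n : ℕ => (n, y))
    (FF_joint D hw hl h y) h1

/-- for small `d`, all `w` close to `lam` are good -/
theorem ev_good {p rr m l m1 : ℕ} (D : GData p rr m l) {w : ℕ → ℝ} (hw : ∀ n, w n ∈ Set.Ico 0 la)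
    (hl : Tendsto w atTop (𝓝 la)) (hp : p ≠ 0) (hm1 : m1 < p + rr) {κ c : ℝ} (hκ : κ ≠ 0) (hc : c ≠ 0) {v : Fin m1 → ℝ}
    (hv : ∀ j, v (Fin.rev j) = - v j) {qs : ℂ → ℂ}
    (hqs : ∀ u, qs u = κ * Complex.sin u ^ p * pr c v u)
    (h : ∀ u, Tendsto (fun n => D.q (w n) u) atTop (𝓝 (qs u)))
    {δ c0 : ℝ} (hδ : 0 < δ) (hc0 : 0 < c0)
    (hT : ∀ᶠ n in atTop, ∀ u : ℂ, ‖u - la‖ ≤ δ → c0 ≤ ‖D.T (w n) u‖) :
    ∀ᶠ d in 𝓝[>] (0 : ℝ), ∀ᶠ n in atTop, Good D (w n) d := by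
  have hpi := Real.pi_pos
  have hsla : Real.sin (-la) ≠ 0 := by
    rw [Real.sin_neg]
    exact neg_ne_zero.mpr (sin_la_pos la_pos (by linarith [la_pos])).ne'
  have hqs0 : qs (-la) ≠ 0 := by
    rw [hqs]
    have h1 := pr_ne_zero hc v hsla 0
    have e1 : (((-la : ℝ) : ℂ) + Complex.I * ((0 : ℝ) : ℂ)) = -la := by simp
    rw [e1] at h1
    have h2 : Complex.sin (-(la : ℂ)) ≠ 0 := by
      rw [← Complex.ofReal_neg, ← Complex.ofReal_sin]
      exact_mod_cast hsla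
    exact mul_ne_zero (mul_ne_zero (by exact_mod_cast hκ) (pow_ne_zero _ h2)) h1
  have P1 := GG_ne D hw hl hp h hqs0 hδ hc0 hT
  have hF0 := FS_zero_ne (rr := rr) hκ hc v hqs
  have F0 := FF_pt D hw hl h 0
  have P2 : ∀ᶠ x : ℕ × ℝ in atTop ×ˢ 𝓝 0, FF D (w x.1) x.2 / FF D (w x.1) 0 ∈ Complex.slitPlane := by
    have h1 : Tendsto (fun x : ℕ × ℝ => FF D (w x.1) x.2 / FF D (w x.1) 0) (atTop ×ˢ 𝓝 0)
        (𝓝 (FS p rr qs 0 / FS p rr qs 0)) := (FF_joint D hw hl h 0).div (F0.comp tendsto_fst) hF0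
    rw [div_self hF0] at h1
    exact h1.eventually (Complex.isOpen_slitPlane.mem_nhds Complex.one_mem_slitPlane)
  obtain ⟨pa, hpa, pb, hpb, hab⟩ := Filter.eventually_prod_iff.mp (P1.and P2)
  obtain ⟨ε, hε, hε2⟩ := Metric.eventually_nhds_iff.mp hpb
  have hsmall : ∀ᶠ d in 𝓝[>] (0 : ℝ), d < ε :=
    (eventually_lt_nhds hε).filter_mono nhdsWithin_le_nhds
  filter_upwards [hsmall, ZH_pos hv hm1, self_mem_nhdsWithin] with d hd1 hd2 hd3
  have hd0 : 0 < d := hd3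
  obtain ⟨hZ1, hZ2⟩ := hd2
  obtain ⟨hs1, hs2⟩ := FS_ratio (rr := rr) hκ hc hv hqs hZ2
  set z : ℝ := ZH (p + rr) v d / (2 * Real.pi) with hz
  have hz0 : 0 < z := div_pos hZ1 (by positivity)
  have hph : Tendsto (fun n => ph (FF D (w n)) d) atTop (𝓝 z) := by
    unfold ph
    have h1 : Tendsto (fun n => FF D (w n) d / FF D (w n) 0) atTop (𝓝 (FS p rr qs d / FS p rr qs 0)) :=
      (FF_pt D hw hl h d).div F0 hF0
    have h2 := ((Complex.continuousAt_arg hs1).tendsto.comp h1).div_const Real.pi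
    have e : z = Complex.arg (FS p rr qs d / FS p rr qs 0) / Real.pi := by
      rw [hs2, hz]
      field_simp
    rw [e]
    exact h2
  have hη : 0 < z * Real.pi / (p + 1) := by positivity
  obtain ⟨ε0, hε0, hth⟩ := th_eps_tendsto hd0 hη
  have hlw : ∀ᶠ n in atTop, la - w n < ε0 := by
    have h1 : Tendsto (fun n => la - w n) atTop (𝓝 (la - la)) := tendsto_const_nhds.sub hl
    rw [sub_self] at h1
    exact h1.eventually_lt_const hε0
  filter_upwards [hpa, F0.eventually_ne hF0, hph.eventually_const_lt (half_lt_self hz0), hlw]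
    with n hn1 hn2 hn3 hn4
  have hin : ∀ y ∈ Set.Icc (-d) d, pb y := by
    intro y hy
    apply hε2
    rw [Real.dist_eq, sub_zero]
    exact lt_of_le_of_lt (abs_le.mpr hy) hd1
  refine ⟨hn2, fun y hy => (hab hn1 (hin y hy)).2, fun y hy => (hab hn1 (hin y hy)).1, ?_⟩
  obtain ⟨h3, -⟩ := hth (la - w n) (by linarith [(hw n).2]) hn4 d le_rfl
  unfold zt
  have h4 : (p : ℝ) / 2 - z / 2 ≤ p * (th (la - w n) d / (2 * Real.pi)) := by
    have h5 : (Real.pi - z * Real.pi / (p + 1)) / (2 * Real.pi) ≤ th (la - w n) d / (2 * Real.pi) :=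
      div_le_div_of_nonneg_right h3.le (by positivity)
    have h6 : (Real.pi - z * Real.pi / (p + 1)) / (2 * Real.pi) = 1 / 2 - z / (2 * (p + 1)) := by
      field_simp
    rw [h6] at h5
    have h7 := mul_le_mul_of_nonneg_left h5 (Nat.cast_nonneg (α := ℝ) p)
    have h8 : (p : ℝ) * (1 / 2 - z / (2 * (p + 1))) = p / 2 - z / 2 * (p / (p + 1)) := by
      field_simp
    rw [h8] at h7
    have h9 : (p : ℝ) / (p + 1) ≤ 1 := by
      rw [div_le_one (by positivity)]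
      linarith
    nlinarith
  linarith

end Pool.Agent.CYL.BG.St
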