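import Pool.Agent.CYL.BG.Def
import Pool.Agent.CYL.B.Two

/-!
CYL, part B, (B1): the T-Q equation at `u = lam + i y`.
-/

namespace Pool.Agent.CYL.BG

open Filter Topology Finset Pool.Agent.CYL.B

/-- `B(y) = prod_k sin (lam + i y - U_k) q (i y + lam) q (i y - 2 lam)`. -/
noncomputable def BB {p r m l : ℕ} (D : GData p r m l) (w y : ℝ) : ℂ :=
  ffg p r w (la + Complex.I * y) * D.q w (la + Complex.I * y) * D.q w (-(2 * la) + Complex.I * y)

/-- `G(y)` of (B1). -/
noncomputable def GG {p r m l : ℕ} (D : GData p r m l) (w y : ℝ) : ℂ :=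
  D.T w (la + Complex.I * y) * D.q w (-la + Complex.I * y)
    - (-1) ^ m * (ffg p r w (la + Complex.I * y) * ffg p r w (Complex.I * y))
      * D.q w (-(3 * la) + Complex.I * y)

lemma ffg_eq (p r : ℕ) (w : ℝ) (u : ℂ) : ffg p r w u = ff p w u * Complex.sin u ^ r := rfl

/-- parity of `ffg`. -/
lemma ffg_neg (p r : ℕ) (w : ℝ) (u : ℂ) : ffg p r w (-u) = (-1) ^ r * ffg p r w u := by
  rw [ffg_eq, ffg_eq, ff_neg, Complex.sin_neg, neg_pow]; ring

lemma ffg_conj (p r : ℕ) (w : ℝ) (u : ℂ) :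
    (starRingEnd ℂ) (ffg p r w u) = ffg p r w ((starRingEnd ℂ) u) := by
  rw [ffg_eq, ffg_eq, map_mul, ff_conj, map_pow, Complex.sin_conj]

lemma BB_neg {p r m l : ℕ} (D : GData p r m l) {w : ℝ} (hw : w ∈ Set.Ico 0 la) (y : ℝ) :
    BB D w (-y) = (starRingEnd ℂ) (BB D w y) := by
  unfold BB
  rw [map_mul, map_mul, ffg_conj, D.q_conj w hw, D.q_conj w hw]
  have h2 : (starRingEnd ℂ) 2 = 2 := Complex.conj_ofNat 2
  simp [map_add, map_mul, Complex.conj_ofReal, Complex.conj_I, h2]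

lemma conj_BB {p r m l : ℕ} (D : GData p r m l) {w : ℝ} (hw : w ∈ Set.Ico 0 la) (y : ℝ) :
    (starRingEnd ℂ) (BB D w y) =
      (-1) ^ r * (ffg p r w (-la + Complex.I * y) * D.q w (-la + Complex.I * y) *
        D.q w (2 * la + Complex.I * y)) := by
  rw [← BB_neg D hw]
  unfold BB
  have e1 : (la : ℂ) + Complex.I * ((-y : ℝ) : ℂ) = -(-la + Complex.I * y) := by
    push_cast; ring
  have e2 : -(2 * (la : ℂ)) + Complex.I * ((-y : ℝ) : ℂ) = -(2 * la + Complex.I * y) := by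
    push_cast; ring
  rw [e1, e2, ffg_neg, D.q_neg w hw, D.q_neg w hw]
  have := neg_one_pow_sq m
  linear_combination ((-1) ^ r * ffg p r w (-la + Complex.I * y) * D.q w (-la + Complex.I * y) *
        D.q w (2 * la + Complex.I * y)) * this

lemma ffg_two_ne (p r : ℕ) {w : ℝ} (hw : w ∈ Set.Ico 0 la) (y : ℝ) :
    ffg p r w (-(2 * la) + Complex.I * y) ≠ 0 := by
  rw [ffg_eq]
  refine mul_ne_zero (ff_two_ne p hw y) (pow_ne_zero _ ?_)
  have h := ff_two_ne 1 (w := 0) ⟨le_rfl, lt_of_le_of_lt hw.1 hw.2⟩ y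
  unfold ff at h
  rw [pow_one] at h
  have h2 := left_ne_zero_of_mul h
  simpa using h2

/-- (B1). -/
theorem two {p r m l : ℕ} (D : GData p r m l) {w : ℝ} (hw : w ∈ Set.Ico 0 la) (y : ℝ) :
    D.q w (Complex.I * y) * GG D w y =
      (-1) ^ r * ffg p r w (-(2 * la) + Complex.I * y) *
        (BB D w y + (-1) ^ m * (starRingEnd ℂ) (BB D w y)) := by
  have h := D.tq w hw (la + Complex.I * y)
  rw [conj_BB D hw]
  have e1 : (la : ℂ) + Complex.I * y - la = Complex.I * y := by ring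
  have e2 : (la : ℂ) + Complex.I * y - 2 * la = -la + Complex.I * y := by ring
  have e3 : (la : ℂ) + Complex.I * y - 3 * la = -(2 * la) + Complex.I * y := by ring
  have e4 : (la : ℂ) + Complex.I * y + la = 2 * la + Complex.I * y := by ring
  have e5 : (la : ℂ) + Complex.I * y - 4 * la = -(3 * la) + Complex.I * y := by ring
  rw [e1, e2, e3, e4, e5] at h
  unfold GG BB
  have h2 := neg_one_pow_sq r
  linear_combination h - (-1) ^ m * (ffg p r w (-(2 * la) + Complex.I * y) *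
    (ffg p r w (-la + Complex.I * y) * D.q w (-la + Complex.I * y) *
        D.q w (2 * la + Complex.I * y))) * h2

/-- A real zero of `q` gives a zero of `B + (-1)^m conj B`. -/
theorem BB_zero_of_root {p r m l : ℕ} (D : GData p r m l) {w : ℝ} (hw : w ∈ Set.Ico 0 la) {y : ℝ}
    (h : D.q w (Complex.I * y) = 0) : BB D w y + (-1) ^ m * (starRingEnd ℂ) (BB D w y) = 0 := by
  have h1 := two D hw y
  rw [h, zero_mul] at h1
  rcases mul_eq_zero.mp h1.symm with h2 | h2
  · rcases mul_eq_zero.mp h2 with h3 | h3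
    · exact absurd h3 (pow_ne_zero _ (by norm_num))
    · exact absurd h3 (ffg_two_ne p r hw y)
  · exact h2

/-- Conversely if `G(y) ≠ 0`. -/
theorem root_of_BB_zero {p r m l : ℕ} (D : GData p r m l) {w : ℝ} (hw : w ∈ Set.Ico 0 la) {y : ℝ}
    (hG : GG D w y ≠ 0) (h : BB D w y + (-1) ^ m * (starRingEnd ℂ) (BB D w y) = 0) :
    D.q w (Complex.I * y) = 0 := by
  have h1 := two D hw y
  rw [h, mul_zero] at h1
  rcases mul_eq_zero.mp h1 with h2 | h2
  · exact h2
  · exact absurd h2 hG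

end Pool.Agent.CYL.BG
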